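import Pool.Agent.Y35.TB.Free

set_option autoImplicit false

/-!
# Transducers generating free groups are bireversible over some orbit of letters

Let `A` be an invertible transducer with finitely many states over a finite alphabet whose group is
free and not commutative. No transitivity is assumed. Then there is an orbit `O` of letters such
that `A` (with the states acting in the same way identified) is bireversible over `O`. For an
arbitrary invariant set `O` of letters this happens if and only if no nontrivial element of the
group fixes all words beginning with some letter of `O`.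

The metric argument of the starting library (sections are almost isometric for the word length)
is applied to the restriction of the self-similar structure to `O`; the converse uses that a letter
of `O` acts on the words of a given length in the states and their inverses as a permutation of
finite order.
-/

namespace Pool.Agent.Results.MP_1d7ced_al.BireversibleOrbits

open Pool.Agent.Y35.TB Pool.Agent.Results.MP_1d7ced_al.FreeTransitiveBireversible

variable {Q X : Type*}

/-- The orbit of a letter. -/
def orb (A : InvTransducer Q X) (x : X) : Set X := {y | ∃ g ∈ A.group, g [x] = [y]}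

lemma root_of_word (A : InvTransducer Q X) (g : A.group) (x : X) :
    (g : Equiv.Perm (List X)) [x] = [A.root g x] := by
  rw [A.apply_cons, A.apply_nil]

lemma root_mem (A : InvTransducer Q X) [Finite X] {O : Set X} (hO : Inv A O) (g : A.group) (x : X)
    (hx : x ∈ O) : A.root g x ∈ O := by
  obtain ⟨u, hu⟩ := exists_V A g.1 g.2
  have h1 := root_of_word A g x
  rw [← hu, V_cons, List.cons.injEq] at h1
  rw [← h1.1]
  exact R_mem A hO u x hx

lemma orb_inv (A : InvTransducer Q X) (x : X) : Inv A (orb A x) := by
  intro q y
  constructor
  · rintro ⟨g, hg, h⟩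
    refine ⟨A.perm q * g, Subgroup.mul_mem _ (Subgroup.subset_closure ⟨q, rfl⟩) hg, ?_⟩
    rw [Equiv.Perm.mul_apply, h]
    rfl
  · rintro ⟨g, hg, h⟩
    refine ⟨(A.perm q)⁻¹ * g, Subgroup.mul_mem _
      (Subgroup.inv_mem _ (Subgroup.subset_closure ⟨q, rfl⟩)) hg, ?_⟩
    rw [Equiv.Perm.mul_apply, h, perm_inv_cons, Equiv.symm_apply_apply, Equiv.Perm.inv_eq_iff_eq.mpr
      (perm_nil A _).symm]

/-- The criterion for free groups. -/
theorem criterion [Finite Q] [Finite X] (A : InvTransducer Q X) (hfree : IsFreeGroup A.group)
    (hnc : ∃ g h : A.group, g * h ≠ h * g) (O : Set X) (hO : Inv A O) :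
    BireversibleOn A.minimal O ↔
      ∀ f ∈ A.group, ∀ x ∈ O, (∀ w, f (x :: w) = x :: w) → f = 1 := by
  rw [bireversibleOn_iff A hO]
  constructor
  · intro h f hf x hx hw
    exact h f hf x hx x hw
  · intro h f hf x hx y hw
    have h1 : (⟨f, hf⟩ : A.group) = 1 := by
      apply eq_one_of_sect' A hfree hnc O (fun g x hx => root_mem A hO g x hx) ?_ ⟨f, hf⟩ x hx
      · apply A.sect_eq
        intro w
        exact ⟨y, hw w⟩
      · intro g z hz h2 h3
        apply Subtype.ext
        refine h g.1 g.2 z hz (fun w => ?_)
        rw [A.apply_cons, h2, h3]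
        rfl
    exact congrArg Subtype.val h1

/-- **Main theorem.** Let `A` be an invertible transducer with finitely many states over a finite
alphabet and `G` its group.

(1) (`G` arbitrary) For every invariant set `O` of letters, the minimal transducer of `A` is
bireversible over `O` if and only if only the trivial element of `G` has a trivial section at a
letter of `O`.

Let now `G` be free and not commutative. Then:

(2) for every invariant set `O` of letters, the minimal transducer is bireversible over `O` if and
only if no nontrivial element of `G` fixes all words beginning with some letter of `O`;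

(3) there is a letter `x` such that the minimal transducer is bireversible over the orbit of `x`;

(4) if `G` is transitive on the letters, then the minimal transducer is bireversible, and `A` itself
is bireversible if its states act in different ways. -/
theorem result [Finite Q] [Finite X] (A : InvTransducer Q X) :
    (∀ O : Set X, Inv A O → (BireversibleOn A.minimal O ↔
      ∀ f ∈ A.group, ∀ x ∈ O, ∀ y, (∀ w, f (x :: w) = y :: w) → f = 1)) ∧
    (IsFreeGroup A.group → (∃ g h : A.group, g * h ≠ h * g) →
      (∀ O : Set X, Inv A O → (BireversibleOn A.minimal O ↔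
        ∀ f ∈ A.group, ∀ x ∈ O, (∀ w, f (x :: w) = x :: w) → f = 1)) ∧
      (∃ x : X, BireversibleOn A.minimal (orb A x)) ∧
      ((∀ x y : X, ∃ g ∈ A.group, g [x] = [y]) →
        A.minimal.Bireversible ∧ (Function.Injective A.act → A.Bireversible))) := by
  refine ⟨fun O hO => bireversibleOn_iff A hO, fun hfree hnc =>
    ⟨fun O hO => criterion A hfree hnc O hO, ?_, fun ht =>
      FreeTransitiveBireversible.result A hfree hnc ht⟩⟩
  obtain ⟨x₀, hx₀⟩ := exists_free_letter' A hfree hnc
  refine ⟨x₀, (criterion A hfree hnc _ (orb_inv A x₀)).mpr ?_⟩
  rintro f hf x ⟨g, hg, hgx⟩ hw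
  -- conjugate `f` by `g`
  let F : A.group := ⟨f, hf⟩
  let G : A.group := ⟨g, hg⟩
  have h1 : A.root G x₀ = x := by
    have := root_of_word A G x₀
    rw [hgx, List.cons.injEq] at this
    exact this.1.symm
  have h2 : A.root F x = x := A.root_eq (w := []) (v := []) (hw [])
  have h3 : A.sect F x = 1 := A.sect_eq fun w => ⟨x, hw w⟩
  have h4 : G⁻¹ * F * G = 1 := by
    apply hx₀
    · change A.ss.act (G⁻¹ * F * G) x₀ = x₀
      rw [A.ss.act_mul, A.ss.act_mul]
      change A.ss.act G⁻¹ (A.root F (A.root G x₀)) = x₀
      rw [h1, h2, ← h1]
      exact A.ss.act_inv_act G x₀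
    · change A.ss.sec (G⁻¹ * F * G) x₀ = 1
      rw [A.ss.sec_mul, A.ss.sec_mul]
      change A.ss.sec G⁻¹ (A.root F (A.root G x₀)) * A.sect F (A.root G x₀) * A.ss.sec G x₀ = 1
      rw [h1, h2, h3, mul_one, ← h1]
      have := A.ss.sec_inv G x₀
      change A.ss.sec G⁻¹ (A.root G x₀) = (A.ss.sec G x₀)⁻¹ at this
      rw [this, inv_mul_cancel]
  have h5 : F = 1 := by
    have : F = G * (G⁻¹ * F * G) * G⁻¹ := by group
    rw [this, h4, mul_one, mul_inv_cancel]
  exact congrArg Subtype.val h5

end Pool.Agent.Results.MP_1d7ced_al.BireversibleOrbits
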